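import Mathlib

open MeasureTheory Set

namespace Pool.Agent.H.MP_93dabc_an

/-- countable / co-countable sigma algebra -/
def cc (Ω : Type) : MeasurableSpace Ω where
  MeasurableSet' s := s.Countable ∨ sᶜ.Countable
  measurableSet_empty := Or.inl countable_empty
  measurableSet_compl s hs := by
    rcases hs with h | h
    · right; simpa using h
    · left; exact h
  measurableSet_iUnion f hf := by
    by_cases h : ∀ i, (f i).Countable
    · left; exact countable_iUnion h
    · push Not at h
      obtain ⟨i, hi⟩ := h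
      right
      refine ((hf i).resolve_left hi).mono (compl_subset_compl.2 (subset_iUnion f i))

lemma cc_iff {Ω : Type} {s : Set Ω} : MeasurableSet[cc Ω] s ↔ s.Countable ∨ sᶜ.Countable := Iff.rfl

open Classical in
noncomputable def ccm (Ω : Type) [Uncountable Ω] : @Measure Ω (cc Ω) :=
  @Measure.ofMeasurable Ω (cc Ω) (fun s _ => if s.Countable then 0 else 1) (by simp) (by
    intro f hf hd
    by_cases h : ∀ i, (f i).Countable
    · simp [h, countable_iUnion h]
    · push Not at h
      obtain ⟨i, hi⟩ := h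
      have h1 : ¬ (⋃ i, f i).Countable := fun h => hi (h.mono (subset_iUnion f i))
      rw [if_neg h1, tsum_eq_single i, if_neg hi]
      intro j hj
      rw [if_pos]
      exact ((cc_iff.1 (hf i)).resolve_left hi).mono (hd hj).subset_compl_right)

open Classical in
lemma ccm_apply {Ω : Type} [Uncountable Ω] {s : Set Ω} (hs : MeasurableSet[cc Ω] s) :
    ccm Ω s = if s.Countable then 0 else 1 :=
  @Measure.ofMeasurable_apply Ω (cc Ω) _ _ _ s hs

lemma ccm_prob (Ω : Type) [Uncountable Ω] : @IsProbabilityMeasure Ω (cc Ω) (ccm Ω) := by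
  refine @IsProbabilityMeasure.mk Ω (cc Ω) _ ?_
  rw [ccm_apply (@MeasurableSet.univ Ω (cc Ω)), if_neg not_countable_univ]

lemma ccm_complete (Ω : Type) [Uncountable Ω] : (ccm Ω).IsComplete := by
  refine ⟨fun s hs => ?_⟩
  obtain ⟨t, hst, ht, h0⟩ := @exists_measurable_superset_of_null Ω (cc Ω) _ _ hs
  rw [ccm_apply ht] at h0
  split_ifs at h0 with h
  · exact Or.inl (h.mono hst)
  · exact absurd h0 one_ne_zero

lemma not_meas {Ω : Type} {g : Ω → ℝ} {c : ℝ} {A B : Set Ω} (hA : ¬ A.Countable)
    (hB : ¬ B.Countable) (h1 : ∀ t ∈ A, g t ≠ c) (h2 : ∀ t ∈ B, g t = c) :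
    ¬ Measurable[cc Ω] g := by
  intro h
  rcases cc_iff.1 (h (measurableSet_singleton c)) with h3 | h3
  · exact hB (h3.mono fun t ht => h2 t ht)
  · exact hA (h3.mono fun t ht => h1 t ht)

abbrev W : Type := (Cardinal.aleph 1).ord.ToType

lemma W_Iio (t : W) : (Iio t).Countable := by
  rw [Cardinal.countable_iff_lt_aleph_one]
  simpa using Cardinal.mk_Iio_lt t

instance : Uncountable W := by
  rw [← Cardinal.aleph0_lt_mk_iff]
  simp [W]

abbrev L1 : Type := lp (fun _ : W => ℝ) 1

lemma summ (x : L1) : Summable fun s => |x s| := by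
  simpa using (lp.memℓp x).summable (by simp)

lemma norm_eq (x : L1) : ‖x‖ = ∑' s, |x s| := by
  rw [lp.norm_eq_tsum_rpow (by simp)]; simp

lemma summ_ind (D : Set W) (x : L1) : Summable fun s => D.indicator (x : W → ℝ) s :=
  (summ x).of_abs.indicator D

noncomputable def ind (D : Set W) : L1 →L[ℝ] ℝ :=
  LinearMap.mkContinuous
    { toFun := fun x => ∑' s, D.indicator (x : W → ℝ) s
      map_add' := fun x y => by
        rw [← (summ_ind D x).tsum_add (summ_ind D y)]
        congr 1; funext s
        by_cases h : s ∈ D <;> simp [h]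
      map_smul' := fun c x => by
        rw [RingHom.id_apply, smul_eq_mul, ← tsum_mul_left]
        congr 1; funext s
        by_cases h : s ∈ D <;> simp [h] } 1 (fun x => by
      rw [one_mul, norm_eq]
      refine tsum_of_norm_bounded (summ x).hasSum fun s => ?_
      by_cases h : s ∈ D <;> simp [h])

lemma ind_apply (D : Set W) (x : L1) : ind D x = ∑' s, D.indicator (x : W → ℝ) s := rfl

def FF (t : W) : Set L1 := {x | (∀ s < t, x s = 0) ∧ ‖x‖ ≤ 1 ∧ ind univ x = 1}

lemma FF_ne (t : W) : (FF t).Nonempty := by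
  classical
  refine ⟨lp.single 1 t 1, fun s hs => lp.single_apply_ne _ _ _ hs.ne, by simp, ?_⟩
  rw [ind_apply, tsum_eq_single t]
  · simp
  · intro s hs; simp [hs]

lemma FF_convex (t : W) : Convex ℝ (FF t) := by
  intro x hx y hy a b ha hb hab
  refine ⟨fun s hs => ?_, ?_, ?_⟩
  · simp [hx.1 s hs, hy.1 s hs]
  · have := convex_closedBall (0 : L1) 1 (mem_closedBall_zero_iff.2 hx.2.1)
      (mem_closedBall_zero_iff.2 hy.2.1) ha hb hab
    exact mem_closedBall_zero_iff.1 this
  · simp [hx.2.2, hy.2.2, hab]

lemma FF_closed (t : W) : IsClosed (FF t) := by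
  have h1 : FF t = (⋂ s ∈ Iio t, {x : L1 | x s = 0}) ∩ ({x | ‖x‖ ≤ 1} ∩ {x | ind univ x = 1}) := by
    ext x; simp [FF]
  rw [h1]
  refine (isClosed_biInter fun s _ => isClosed_eq ?_ continuous_const).inter
    ((isClosed_le continuous_norm continuous_const).inter
      (isClosed_eq (ind univ).continuous continuous_const))
  exact (continuous_apply s).comp lp.uniformContinuous_coe.continuous

lemma FF_bdd (t : W) : Bornology.IsBounded (FF t) :=
  (Metric.isBounded_closedBall (x := (0 : L1)) (r := 1)).subset fun _ hx =>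
    mem_closedBall_zero_iff.2 hx.2.1

lemma FF_meas (G : Set L1) : MeasurableSet[cc W] {t | (FF t ∩ G).Nonempty} := by
  by_cases h : ∀ t, (FF t ∩ G).Nonempty
  · right
    have : {t | (FF t ∩ G).Nonempty}ᶜ = ∅ := by ext t; simp [h t]
    rw [this]; exact countable_empty
  · push Not at h
    obtain ⟨t0, h0⟩ := h
    left
    refine (W_Iio t0).mono fun t ht => ?_
    by_contra h1
    have h2 : t0 ≤ t := not_lt.1 h1
    obtain ⟨x, hx, hG⟩ := ht
    have : x ∈ FF t0 ∩ G := ⟨⟨fun s hs => hx.1 s (hs.trans_le h2), hx.2⟩, hG⟩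
    rw [h0] at this; exact this

lemma comp_countable {α : Type} {r : α → α → Prop} (hr : ∀ a, {b | r a b}.Countable) (a : α) :
    {b | Relation.ReflTransGen r a b}.Countable := by
  let S : ℕ → Set α := fun n => Nat.rec {a} (fun _ T => ⋃ b ∈ T, {c | r b c}) n
  have hS : ∀ n, (S n).Countable := by
    intro n
    induction n with
    | zero => exact countable_singleton a
    | succ n ih => exact ih.biUnion fun b _ => hr b
  refine (countable_iUnion hS).mono fun b hb => ?_
  induction hb with
  | refl => exact mem_iUnion.2 ⟨0, rfl⟩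
  | tail _ h ih =>
    obtain ⟨n, hn⟩ := mem_iUnion.1 ih
    exact mem_iUnion.2 ⟨n + 1, mem_biUnion hn h⟩

theorem no_selector (f : W → L1) (hf : ∀ t, f t ∈ FF t) :
    ∃ φ : L1 →L[ℝ] ℝ, ¬ Measurable[cc W] fun t => φ (f t) := by
  let r : W → W → Prop := fun a b => f a b ≠ 0 ∨ f b a ≠ 0
  have hsymm : ∀ a b, r a b → r b a := fun a b h => h.symm
  have hr : ∀ a, {b | r a b}.Countable := by
    intro a
    have h1 : (Function.support fun s => |f a s|).Countable := (summ (f a)).countable_support
    refine ((h1.union (W_Iio a)).union (countable_singleton a)).mono fun b hb => ?_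
    rcases hb with hb | hb
    · left; left; simpa using hb
    · have : b ≤ a := by
        by_contra! h; exact hb ((hf b).1 a h)
      rcases this.lt_or_eq with h | h
      · left; right; exact h
      · right; exact h
  let Φ : W → Set W := fun a => {b | Relation.ReflTransGen r a b}
  have hΦ : ∀ a b, r a b → Φ a = Φ b := by
    intro a b h
    ext c
    exact ⟨fun hc => (Relation.ReflTransGen.single (hsymm a b h)).trans hc,
      fun hc => (Relation.ReflTransGen.single h).trans hc⟩
  have hunc : ¬ (range Φ).Countable := by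
    intro h
    have : (⋃ T ∈ range Φ, T).Countable := h.biUnion (by
      rintro _ ⟨a, rfl⟩; exact comp_countable hr a)
    refine not_countable_univ (this.mono fun a _ => mem_biUnion (mem_range_self a) ?_)
    exact Relation.ReflTransGen.refl
  have hinf : (range Φ).Infinite := fun h => hunc h.countable
  obtain ⟨R1, R2, hu, hd, hc⟩ := hinf.exists_union_disjoint_cardinal_eq_of_infinite
  have hiff : R1.Countable ↔ R2.Countable := by
    rw [← Cardinal.le_aleph0_iff_set_countable, ← Cardinal.le_aleph0_iff_set_countable, hc]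
  have h1 : ¬ R1.Countable := fun h => hunc (hu ▸ h.union (hiff.1 h))
  have h2 : ¬ R2.Countable := fun h => hunc (hu ▸ (hiff.2 h).union h)
  have hpre : ∀ R ⊆ range Φ, ¬ R.Countable → ¬ (Φ ⁻¹' R).Countable := by
    intro R hR h h'
    exact h (by rw [← image_preimage_eq_of_subset hR]; exact h'.image Φ)
  refine ⟨ind (Φ ⁻¹' R1), not_meas (c := 0) (hpre R1 (hu ▸ subset_union_left) h1)
    (hpre R2 (hu ▸ subset_union_right) h2) (fun t ht => ?_) (fun t ht => ?_)⟩
  · have : ind (Φ ⁻¹' R1) (f t) = ind univ (f t) := by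
      rw [ind_apply, ind_apply]
      congr 1; funext s
      by_cases h : f t s = 0
      · simp [indicator, h]
      · have : s ∈ Φ ⁻¹' R1 := by
          show Φ s ∈ R1
          rw [← hΦ t s (Or.inl h)]; exact ht
        simp [this]
    rw [this, (hf t).2.2]; exact one_ne_zero
  · rw [ind_apply]
    have : ∀ s, (Φ ⁻¹' R1).indicator (f t : W → ℝ) s = 0 := by
      intro s
      by_cases h : f t s = 0
      · simp [indicator, h]
      · refine indicator_of_notMem (fun hs => ?_) _
        have h3 : Φ t ∈ R1 := by rw [hΦ t s (Or.inl h)]; exact hs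
        exact disjoint_left.1 hd h3 ht
    simp [this]

end Pool.Agent.H.MP_93dabc_an
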